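import Pool.Agent.T6.H59.FI.Tower
import Pool.Agent.T6.H59.FI.Code
import Pool.Agent.T6.H59.FI.ANAL
import Pool.Agent.T6.H59.FI.AT
import Pool.Agent.T6.H59.FI.NOISE
import Pool.Agent.T6.H59.FI.FG
import Pool.Agent.T6.H59.FI.HAAR
import Pool.Agent.T6.H59.FI.GRAPH

/-!
# MP_8ebff2_pr: the factors of i.i.d. are not closed under `dbar_2` limits

We show that on the regular tree of degree `2 k`, `k ≥ 2`, there are factor of i.i.d. processes
`X n` and an invariant process `Y` with finite second moments which is not a factor of i.i.d.,
such that `dbar_2 (X n, Y) → 0`.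

`Y` is the inverse limit of the adjacency operator modulo 2: a sequence of configurations `y n` of
fair coins with `y n = A (y (n + 1))`, coded by one real number at every vertex.  The process `X n`
only keeps `y 0, …, y n`; it is a function of the fair coins `y n`.  If `Y` were a factor of i.i.d.,
the noise sensitivity of `y n` would decay exponentially in `n`, by an entropy inequality for
factors of i.i.d.; but the noise sensitivity of a fair coin is bounded below.
-/

set_option autoImplicit false

namespace Pool.Agent.Results.MP_8ebff2_pr.NotClosed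

open MeasureTheory Filter Topology

variable {V : Type}

/-- the action of an automorphism on the configurations -/
def act {E : Type} {G : SimpleGraph V} (g : G ≃g G) (x : V → E) : V → E := fun v => x (g.symm v)

/-- the law of i.i.d. uniform labels in `[0, 1]` -/
noncomputable def labels (V : Type) : Measure (V → unitInterval) :=
  Measure.infinitePi (fun _ => (volume : Measure unitInterval))

/-- `μ` is the law of an invariant process on `G` with finite second moments -/
structure IsProcess (G : SimpleGraph V) (μ : Measure (V → ℝ)) : Prop where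
  prob : IsProbabilityMeasure μ
  inv : ∀ g : G ≃g G, μ.map (act g) = μ
  sq : ∀ v, Integrable (fun x : V → ℝ => (x v) ^ 2) μ

/-- `μ` is the law of a factor of i.i.d. process, with a measurable map which commutes with all
automorphisms -/
def IsFIID (G : SimpleGraph V) (μ : Measure (V → ℝ)) : Prop :=
  ∃ Φ : (V → unitInterval) → (V → ℝ), Measurable Φ ∧
    (∀ (g : G ≃g G) (ω : V → unitInterval), Φ (act g ω) = act g (Φ ω)) ∧
    (labels V).map Φ = μ

/-- the same, when the map commutes with every automorphism only almost everywhere -/
def IsFIIDae (G : SimpleGraph V) (μ : Measure (V → ℝ)) : Prop :=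
  ∃ Φ : (V → unitInterval) → (V → ℝ), Measurable Φ ∧
    (∀ g : G ≃g G, ∀ᵐ ω ∂(labels V), Φ (act g ω) = act g (Φ ω)) ∧
    (labels V).map Φ = μ

/-- invariant couplings of `μ` and `ν` -/
structure IsCoupling (G : SimpleGraph V) (μ ν : Measure (V → ℝ))
    (π : Measure ((V → ℝ) × (V → ℝ))) : Prop where
  fst : π.map Prod.fst = μ
  snd : π.map Prod.snd = ν
  inv : ∀ g : G ≃g G, π.map (fun p => (act g p.1, act g p.2)) = π

/-- the square of the distance `dbar_2`, measured at the vertex `o` -/
noncomputable def dbarSq (G : SimpleGraph V) (o : V) (μ ν : Measure (V → ℝ)) : ENNReal :=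
  ⨅ (π : Measure ((V → ℝ) × (V → ℝ))) (_ : IsCoupling G μ ν π),
    ∫⁻ p, ENNReal.ofReal ((p.1 o - p.2 o) ^ 2) ∂π

/-! ### The group, its automorphisms and its translations -/

open Pool.Agent.T6.H59.FI

section

variable {k : ℕ} (T : Tree (FreeGroup (Fin k)) (Fin k × Bool))
  (hs : ∀ l, T.s l = FreeGroup.mk [l])

include hs in
theorem nb_aut (g : cay T ≃g cay T) (y : FreeGroup (Fin k) → ZMod 2) :
    nb T (y ∘ g) = nb T y ∘ g := by
  funext v
  unfold nb
  simp only [Function.comp_apply]
  have h1 : Function.Injective (fun l : Fin k × Bool => g (T.s l * v)) := by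
    intro l l' h
    have h2 := mul_right_cancel (g.injective h)
    rw [hs, hs] at h2
    exact Gr.mk_injective h2
  have h2 : Function.Injective (fun l : Fin k × Bool => T.s l * g v) := by
    intro l l' h
    have h2 := mul_right_cancel h
    rw [hs, hs] at h2
    exact Gr.mk_injective h2
  have e1 := Finset.sum_image (f := y) (s := Finset.univ) (h1.injOn)
  have e2 := Finset.sum_image (f := y) (s := Finset.univ) (h2.injOn)
  rw [← e1, ← e2]
  refine Finset.sum_congr ?_ fun _ _ => rfl
  ext w
  simp only [Finset.mem_image, Finset.mem_univ, true_and]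
  constructor
  · rintro ⟨l, rfl⟩
    have : (cay T).Adj (g v) (g (T.s l * v)) := by
      rw [g.map_adj_iff, Gr.adj_iff T hs]
      exact ⟨l, by rw [hs]⟩
    rw [Gr.adj_iff T hs] at this
    obtain ⟨m, hm⟩ := this
    exact ⟨m, by rw [hs]; exact hm.symm⟩
  · rintro ⟨l, rfl⟩
    have : (cay T).Adj v (g.symm (T.s l * g v)) := by
      rw [← g.map_adj_iff, g.apply_symm_apply, Gr.adj_iff T hs]
      exact ⟨l, by rw [hs]⟩
    rw [Gr.adj_iff T hs] at this
    obtain ⟨m, hm⟩ := this
    exact ⟨m, by rw [hs, ← hm, g.apply_symm_apply]⟩

/-- right translations are automorphisms -/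
def rt (h : FreeGroup (Fin k)) : cay T ≃g cay T where
  toEquiv := Equiv.mulRight h
  map_rel_iff' := by
    intro v w
    show (cay T).Adj (v * h) (w * h) ↔ (cay T).Adj v w
    rw [Gr.adj_iff T hs, Gr.adj_iff T hs]
    refine exists_congr fun l => ?_
    rw [← mul_assoc]
    exact ⟨fun e => mul_right_cancel e, fun e => by rw [e]⟩

theorem act_rt {E : Type} (h : FreeGroup (Fin k)) (x : FreeGroup (Fin k) → E) :
    act (rt T hs h⁻¹) x = tr h x := by
  funext v
  show x ((Equiv.mulRight h⁻¹).symm v) = x (v * h)
  simp

end

/-! ### Measurability -/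

theorem measurable_act {E : Type} [MeasurableSpace E] {G : SimpleGraph V} (g : G ≃g G) :
    Measurable (act g : (V → E) → (V → E)) :=
  measurable_pi_lambda _ fun v => measurable_pi_apply _

/-- the fair coin from a uniform label -/
noncomputable def kap (u : unitInterval) : ZMod 2 := if (u : ℝ) < 1 / 2 then 0 else 1

theorem measurable_kap : Measurable kap :=
  Measurable.ite (measurableSet_lt (by fun_prop) measurable_const) measurable_const
    measurable_const

theorem map_kap : (volume : Measure unitInterval).map kap = coin := by
  refine Measure.ext_of_singleton fun a => ?_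
  rw [Measure.map_apply measurable_kap (MeasurableSet.singleton a)]
  have hc : coin {a} = ENNReal.ofReal (1 / 2) := by
    unfold coin
    rw [Measure.smul_apply, Measure.count_singleton, smul_eq_mul, mul_one]
  rw [hc]
  have hhalf : ((⟨1 / 2, by norm_num, by norm_num⟩ : unitInterval) : ℝ) = 1 / 2 := rfl
  have hor : ∀ a : ZMod 2, a = 0 ∨ a = 1 := by decide
  rcases hor a with rfl | rfl
  · have : kap ⁻¹' {0} = Set.Iio (⟨1 / 2, by norm_num, by norm_num⟩ : unitInterval) := by
      ext u
      simp only [Set.mem_preimage, Set.mem_singleton_iff, Set.mem_Iio, kap]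
      rw [← Subtype.coe_lt_coe, hhalf]
      by_cases h : (u : ℝ) < 1 / 2 <;> simp [h]
    rw [this, unitInterval.volume_Iio]
  · have : kap ⁻¹' {1} = Set.Ici (⟨1 / 2, by norm_num, by norm_num⟩ : unitInterval) := by
      ext u
      simp only [Set.mem_preimage, Set.mem_singleton_iff, Set.mem_Ici, kap]
      rw [← Subtype.coe_le_coe, hhalf]
      by_cases h : (u : ℝ) < 1 / 2
      · simp [h]
      · simp only [h, if_false, true_iff]; exact not_lt.1 h
    rw [this, unitInterval.volume_Ici, hhalf]
    norm_num

theorem map_kap' : (labels V).map (fun ω v => kap (ω v)) = bern V coin := by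
  have := Measure.infinitePi_map_pi (μ := fun _ : V => (volume : Measure unitInterval))
    (f := fun _ => kap) (fun _ => measurable_kap)
  unfold labels bern
  rw [this]
  congr
  funext _
  exact map_kap

/-! ### The processes -/

section

variable {Γ ι : Type} [Group Γ] [Fintype ι] (T : Tree Γ ι)

theorem measurable_nb : Measurable (nb T) := by
  refine measurable_pi_lambda _ fun v => ?_
  unfold nb
  exact Finset.measurable_sum _ fun i _ => measurable_pi_apply _

/-- the process with `N + 1` levels -/
noncomputable def XN (N : ℕ) (y : ℕ → Γ → ZMod 2) : Γ → ℝ :=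
  fun v => code (trunc N (fun n => y n v))

/-- the process with all levels -/
noncomputable def XX (y : ℕ → Γ → ZMod 2) : Γ → ℝ := fun v => code (fun n => y n v)

/-- the lower levels as functions of level `N` -/
noncomputable def RR (N : ℕ) (z : Γ → ZMod 2) : ℕ → Γ → ZMod 2 :=
  fun n => if n ≤ N then (nb T)^[N - n] z else 0

omit [Group Γ] in
theorem measurable_XX : Measurable (XX : (ℕ → Γ → ZMod 2) → Γ → ℝ) := by
  refine measurable_pi_lambda _ fun v => measurable_code.comp ?_
  exact measurable_pi_lambda _ fun n => (measurable_pi_apply v).comp (measurable_pi_apply n)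

omit [Group Γ] in
theorem measurable_XN (N : ℕ) : Measurable (XN N : (ℕ → Γ → ZMod 2) → Γ → ℝ) := by
  refine measurable_pi_lambda _ fun v => measurable_code.comp ((measurable_trunc N).comp ?_)
  exact measurable_pi_lambda _ fun n => (measurable_pi_apply v).comp (measurable_pi_apply n)

theorem measurable_RR (N : ℕ) : Measurable (RR T N) := by
  refine measurable_pi_lambda _ fun n => ?_
  unfold RR
  by_cases h : n ≤ N
  · simp only [h, if_true]
    exact (measurable_nb T).iterate _
  · simp only [h, if_false]
    exact measurable_const

theorem iter_rel {y : ℕ → Γ → ZMod 2} (hy : ∀ n, y n = nb T (y (n + 1))) (N j : ℕ) :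
    y N = (nb T)^[j] (y (N + j)) := by
  induction j with
  | zero => rfl
  | succ j ih => rw [Function.iterate_succ_apply, ← add_assoc, ← hy, ih]

theorem XN_eq {y : ℕ → Γ → ZMod 2} (hy : ∀ n, y n = nb T (y (n + 1))) (N : ℕ) :
    XN N y = XX (RR T N (y N)) := by
  funext v
  unfold XN XX RR trunc
  congr 1
  funext n
  by_cases h : n ≤ N
  · simp only [h, if_true]
    have := iter_rel T hy n (N - n)
    rw [Nat.add_sub_cancel' h] at this
    rw [this]
  · simp only [h, if_false]
    rfl

end

/-- **The factors of i.i.d. are not closed under `dbar_2` limits.**  For every `k ≥ 2` there are a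
regular tree `G` of degree `2 k` (its automorphism group is transitive), factor of i.i.d. processes
`X n` on `G` and an invariant process `Y` on `G`, all with finite second moments, such that
`dbar_2 (X n, Y) → 0`, but `Y` is not a factor of i.i.d., even when the factor map is only required
to commute with the automorphisms almost everywhere. -/
theorem result (k : ℕ) (hk : 2 ≤ k) : ∃ (V : Type) (_ : Countable V) (_ : Infinite V)
    (G : SimpleGraph V), G.IsTree ∧ (∀ v, (G.neighborSet v).ncard = 2 * k) ∧
    (∀ v w, ∃ g : G ≃g G, g v = w) ∧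
    ∃ (X : ℕ → Measure (V → ℝ)) (Y : Measure (V → ℝ)),
      (∀ n, IsProcess G (X n) ∧ IsFIID G (X n)) ∧ IsProcess G Y ∧
      (∀ o, Tendsto (fun n => dbarSq G o (X n) Y) atTop (𝓝 0)) ∧ ¬ IsFIIDae G Y := by
  obtain ⟨T, hs, hsurj⟩ := stmFG k hk
  have hcount : Countable (FreeGroup (Fin k)) := by
    unfold FreeGroup
    infer_instance
  haveI : Nonempty (Fin k) := ⟨⟨0, by omega⟩⟩
  obtain ⟨hT1, hT2⟩ := stmGRAPH k T hk hs
  obtain ⟨P, hP, hrel, hlaw, hinv⟩ := stmHAAR _ _ T hsurj
  -- invariance of `P`
  have hPinv : ∀ g : cay T ≃g cay T, P.map (fun y n => act g (y n)) = P := by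
    intro g
    have := hinv g.symm.toEquiv (fun y => nb_aut T hs g.symm y)
    exact this
  have hgm : ∀ g : cay T ≃g cay T,
      Measurable (fun (y : ℕ → FreeGroup (Fin k) → ZMod 2) n => act g (y n)) := fun g =>
    measurable_pi_lambda _ fun n => (measurable_act g).comp (measurable_pi_apply n)
  have hXXg : ∀ (g : cay T ≃g cay T) y, XX (fun n => act g (y n)) = act g (XX y) :=
    fun g y => rfl
  have hXNg : ∀ (N : ℕ) (g : cay T ≃g cay T) y, XN N (fun n => act g (y n)) = act g (XN N y) :=
    fun N g y => rfl
  have hbd : ∀ b, (code b) ^ 2 ≤ 3 := by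
    intro b
    have h1 := code_nonneg b
    have h2 := code_le b
    nlinarith
  refine ⟨FreeGroup (Fin k), hcount, inferInstance, cay T, hT1, hT2, ?_,
    fun N => P.map (XN N), P.map XX, ?_, ?_, ?_, ?_⟩
  · -- transitivity
    intro v w
    refine ⟨rt T hs (v⁻¹ * w), ?_⟩
    show v * (v⁻¹ * w) = w
    simp
  · intro N
    refine ⟨⟨Measure.isProbabilityMeasure_map (measurable_XN N).aemeasurable, ?_, ?_⟩, ?_⟩
    · intro g
      show (P.map (XN N)).map (act g) = P.map (XN N)
      rw [Measure.map_map (measurable_act g) (measurable_XN N)]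
      conv_rhs => rw [← hPinv g, Measure.map_map (measurable_XN N) (hgm g)]
      rfl
    · intro v
      show Integrable (fun x : FreeGroup (Fin k) → ℝ => (x v) ^ 2) (P.map (XN N))
      rw [integrable_map_measure ((measurable_pi_apply v).pow_const 2).aestronglyMeasurable
        (measurable_XN N).aemeasurable]
      refine Integrable.of_bound (C := 3) ?_ (Eventually.of_forall fun y => ?_)
      · exact (((measurable_pi_apply v).comp (measurable_XN N)).pow_const 2).aestronglyMeasurable
      · rw [Real.norm_eq_abs, abs_of_nonneg (sq_nonneg _)]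
        exact hbd _
    · -- factor of i.i.d.
      refine ⟨fun ω => XX (RR T N (fun v => kap (ω v))), ?_, ?_, ?_⟩
      · refine measurable_XX.comp ((measurable_RR T N).comp ?_)
        exact measurable_pi_lambda _ fun v => measurable_kap.comp (measurable_pi_apply v)
      · intro g ω
        show XX (RR T N (fun v => kap (act g ω v))) = act g (XX (RR T N (fun v => kap (ω v))))
        rw [← hXXg]
        have hcomm : ∀ (j : ℕ) (z : FreeGroup (Fin k) → ZMod 2),
            (nb T)^[j] (act g z) = act g ((nb T)^[j] z) := by
          intro j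
          induction j with
          | zero => intro z; rfl
          | succ j ih =>
            intro z
            rw [Function.iterate_succ_apply, Function.iterate_succ_apply]
            have : nb T (act g z) = act g (nb T z) := nb_aut T hs g.symm z
            rw [this, ih]
        refine congrArg XX ?_
        funext n
        unfold RR
        by_cases h : n ≤ N
        · simp only [h, if_true]
          exact hcomm (N - n) (fun v => kap (ω v))
        · simp only [h, if_false]
          rfl
      · have hm1 : Measurable (fun z : FreeGroup (Fin k) → ZMod 2 => XX (RR T N z)) :=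
          measurable_XX.comp (measurable_RR T N)
        have hm2 : Measurable (fun (ω : FreeGroup (Fin k) → unitInterval) v => kap (ω v)) :=
          measurable_pi_lambda _ fun v => measurable_kap.comp (measurable_pi_apply v)
        have hm3 : Measurable (fun y : ℕ → FreeGroup (Fin k) → ZMod 2 => y N) :=
          measurable_pi_apply N
        have h1 : (labels (FreeGroup (Fin k))).map
            (fun ω => XX (RR T N (fun v => kap (ω v)))) =
            ((labels (FreeGroup (Fin k))).map (fun ω v => kap (ω v))).map
              (fun z => XX (RR T N z)) := by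
          rw [Measure.map_map hm1 hm2]
          rfl
        rw [h1, map_kap', ← hlaw N, Measure.map_map hm1 hm3]
        refine Measure.map_congr ?_
        filter_upwards [hrel] with y hy
        exact (XN_eq T hy N).symm
  · refine ⟨Measure.isProbabilityMeasure_map measurable_XX.aemeasurable, ?_, ?_⟩
    · intro g
      rw [Measure.map_map (measurable_act g) measurable_XX]
      conv_rhs => rw [← hPinv g, Measure.map_map measurable_XX (hgm g)]
      rfl
    · intro v
      haveI : IsProbabilityMeasure (P.map (XX : (ℕ → FreeGroup (Fin k) → ZMod 2) → _)) :=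
        Measure.isProbabilityMeasure_map measurable_XX.aemeasurable
      rw [integrable_map_measure ((measurable_pi_apply v).pow_const 2).aestronglyMeasurable
        measurable_XX.aemeasurable]
      refine Integrable.of_bound (C := 3) ?_ (Eventually.of_forall fun y => ?_)
      · exact (((measurable_pi_apply v).comp measurable_XX).pow_const 2).aestronglyMeasurable
      · rw [Real.norm_eq_abs, abs_of_nonneg (sq_nonneg _)]
        exact hbd _
  · -- convergence
    intro o
    have hlim : Tendsto (fun n : ℕ => ENNReal.ofReal ((3 / 2 * (1 / 3) ^ n) ^ 2)) atTop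
        (𝓝 0) := by
      have h1 : Tendsto (fun n : ℕ => ((3 : ℝ) / 2 * (1 / 3) ^ n) ^ 2) atTop (𝓝 0) := by
        have := ((tendsto_pow_atTop_nhds_zero_of_lt_one (r := (1 : ℝ) / 3) (by norm_num)
          (by norm_num)).const_mul (3 / 2)).pow 2
        simpa using this
      have := ENNReal.tendsto_ofReal h1
      simpa using this
    refine tendsto_of_tendsto_of_tendsto_of_le_of_le tendsto_const_nhds hlim
      (fun _ => zero_le) ?_
    intro N
    show dbarSq (cay T) o (P.map (XN N)) (P.map XX) ≤ _
    unfold dbarSq
    have hm : Measurable (fun y : ℕ → FreeGroup (Fin k) → ZMod 2 => (XN N y, XX y)) :=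
      (measurable_XN N).prodMk measurable_XX
    refine iInf₂_le_of_le (P.map (fun y => (XN N y, XX y))) ⟨?_, ?_, ?_⟩ ?_
    · rw [Measure.map_map measurable_fst hm]; rfl
    · rw [Measure.map_map measurable_snd hm]; rfl
    · intro g
      have hm2 : Measurable (fun p : (FreeGroup (Fin k) → ℝ) × (FreeGroup (Fin k) → ℝ) =>
          (act g p.1, act g p.2)) :=
        ((measurable_act g).comp measurable_fst).prodMk ((measurable_act g).comp measurable_snd)
      rw [Measure.map_map hm2 hm]
      conv_rhs => rw [← hPinv g, Measure.map_map hm (hgm g)]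
      rfl
    · rw [lintegral_map (by fun_prop) hm]
      have : ∀ y : ℕ → FreeGroup (Fin k) → ZMod 2,
          ENNReal.ofReal ((XN N y o - XX y o) ^ 2) ≤
            ENNReal.ofReal ((3 / 2 * (1 / 3) ^ N) ^ 2) := by
        intro y
        refine ENNReal.ofReal_le_ofReal ?_
        have := code_trunc N (fun n => y n o)
        rw [← sq_abs (XN N y o - XX y o)]
        exact pow_le_pow_left₀ (abs_nonneg _) this 2
      refine (lintegral_mono this).trans ?_
      rw [lintegral_const, measure_univ, mul_one]
  · -- not a factor of i.i.d.
    rintro ⟨Φ, hΦ, heq, hmap⟩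
    obtain ⟨D, hD, hDc⟩ := exists_digits
    have hmapP : ∀ {p : (FreeGroup (Fin k) → ℝ) → Prop}, MeasurableSet {x | p x} →
        (∀ᵐ y ∂P, p (XX y)) → ∀ᵐ ω ∂(labels (FreeGroup (Fin k))), p (Φ ω) := by
      intro p hp h
      have h1 : ∀ᵐ x ∂(P.map XX), p x := by
        rw [ae_map_iff measurable_XX.aemeasurable hp]; exact h
      rw [← hmap, ae_map_iff hΦ.aemeasurable hp] at h1
      exact h1
    have hDm : ∀ (v : FreeGroup (Fin k)) (n : ℕ),
        Measurable (fun x : FreeGroup (Fin k) → ℝ => D (x v) n) := fun v n =>
      (measurable_pi_apply n).comp (hD.comp (measurable_pi_apply v))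
    refine no_tower (Γ := FreeGroup (Fin k)) (E := unitInterval) (ι := Fin k × Bool)
      (lam := volume) stmANAL stmNOISE stmAT ?_ T (fun n ω => D (Φ ω 1) n) ?_ ?_ ?_
    · rw [Fintype.card_prod, Fintype.card_fin, Fintype.card_bool]; omega
    · intro n
      exact (hDm 1 n).comp hΦ
    · intro n
      have h1 : ∀ᵐ ω ∂(labels (FreeGroup (Fin k))),
          D (Φ ω 1) n = ∑ i, D (Φ ω (T.s i)) (n + 1) := by
        refine hmapP (p := fun x => D (x 1) n = ∑ i, D (x (T.s i)) (n + 1)) ?_ ?_
        · exact measurableSet_eq_fun (hDm 1 n) (Finset.measurable_sum _ fun i _ => hDm _ _)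
        · filter_upwards [hrel] with y hy
          have e : ∀ v, D (XX y v) = fun n => y n v := fun v => hDc _
          simp only [e]
          have := congrFun (hy n) 1
          rw [this]
          unfold nb
          simp only [mul_one]
      have h2 : ∀ᵐ ω ∂(labels (FreeGroup (Fin k))), ∀ i,
          Φ (tr (T.s i) ω) = tr (T.s i) (Φ ω) := by
        rw [ae_all_iff]
        intro i
        have := heq (rt T hs (T.s i)⁻¹)
        simp only [act_rt] at this
        exact this
      filter_upwards [h1, h2] with ω h3 h4
      simp only [h4]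
      rw [h3]
      simp only [tr, one_mul]
    · intro n
      have h1 : (labels (FreeGroup (Fin k))).real {ω | D (Φ ω 1) n = 0} = 1 / 2 := by
        have hA : MeasurableSet {x : FreeGroup (Fin k) → ℝ | D (x 1) n = 0} :=
          hDm 1 n (MeasurableSet.singleton 0)
        have e1 : (labels (FreeGroup (Fin k))) {ω | D (Φ ω 1) n = 0} =
            (P.map XX) {x | D (x 1) n = 0} := by
          rw [← hmap, Measure.map_apply hΦ hA]; rfl
        have e2 : (P.map XX) {x : FreeGroup (Fin k) → ℝ | D (x 1) n = 0} =
            (P.map (fun y => y n)) {z | z 1 = 0} := by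
          rw [Measure.map_apply measurable_XX hA, Measure.map_apply (measurable_pi_apply n)
            (measurable_pi_apply 1 (MeasurableSet.singleton 0))]
          congr 1
          ext y
          show D (XX y 1) n = 0 ↔ y n 1 = 0
          have e : D (XX y 1) = fun n => y n 1 := hDc _
          rw [e]
        have e3 : (bern (FreeGroup (Fin k)) coin) {z | z 1 = 0} = coin {0} := by
          have h := congrArg (fun m => m {0})
            (Measure.infinitePi_map_eval (fun _ : FreeGroup (Fin k) => coin) 1)
          rw [Measure.map_apply (measurable_pi_apply 1) (MeasurableSet.singleton 0)] at h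
          exact h
        rw [measureReal_def, e1, e2, hlaw n, e3]
        unfold coin
        rw [Measure.smul_apply, Measure.count_singleton, smul_eq_mul, mul_one,
          ENNReal.toReal_ofReal (by norm_num)]
      exact h1

end Pool.Agent.Results.MP_8ebff2_pr.NotClosed
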